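import Pool.Agent.Y42.Pal.Low

set_option autoImplicit false

/-!
# Palindromic width of nilpotent groups: exact values beyond the free nilpotent groups

For every `n ≥ 2` (also `n = 2`) and `r ≥ 2` the palindromic width of the free nilpotent group of
rank `n` and class `r` is `2 n - 1` for `r ≤ 3` and `2 n + 1` for `r ≥ 4`.  More generally let `G`
be any group generated by `n` elements `x_i`:

* if `G` is nilpotent, its palindromic width is at most `2 n + 1`;
* if `G` has class at most three, its palindromic width is at most `2 n - 1`;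
* if all relations between the `x_i` lie in `γ_3(F_n) F_n^4`, it is at least `2 n - 1`;
* if `n ≥ 2` and all relations between the `x_i` lie in `γ_5(F_n) F_n^8`, it is at least
  `2 n + 1`.

The starting file `PalWidth` has the first statement for `n ≥ 3`.  The bridge lemmas below are
adapted from it; the case `n = 2` and the bounds modulo powers need a new test in the dihedral
group of order sixteen (`Pool.Agent.Y42.Pal.Low`).
-/

namespace Pool.Agent.Results.MP_e99d20_al.NilpotentQuotients

open Pool.Agent.Helper39.PalNil Pool.Agent.Y42.Pal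

universe u

section defs
variable {ι : Type} {G : Type u} [Group G]

/-- The element of the group represented by a word: the letter `(i, true)` stands for the generator
`x i` and the letter `(i, false)` for its inverse. -/
def wordValue (x : ι → G) (w : List (ι × Bool)) : G :=
  (w.map fun a => cond a.2 (x a.1) (x a.1)⁻¹).prod

/-- An element of the group is a palindrome with respect to the generators `x i` if it is represented
by a reduced word that coincides with its own reversal. -/
def IsPalindrome (x : ι → G) (g : G) : Prop :=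
  ∃ w : List (ι × Bool), FreeGroup.IsReduced w ∧ w.reverse = w ∧ wordValue x w = g

/-- The palindromic length: the least number of factors in an expression of `g` as a product of
palindromes (infinite if there is none). -/
noncomputable def palLength (x : ι → G) (g : G) : ℕ∞ :=
  ⨅ (l : List G) (_ : (∀ p ∈ l, IsPalindrome x p) ∧ l.prod = g), (l.length : ℕ∞)

/-- The palindromic width: the supremum of the palindromic lengths. -/
noncomputable def palWidth (x : ι → G) : ℕ∞ := ⨆ g : G, palLength x g

end defs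

/-- The free nilpotent group of rank `n` and class `r`: the free group modulo the term
`γ_{r+1}` of the lower central series (Mathlib numbers the whole group by `0`). -/
abbrev FreeNilpotent (n r : ℕ) : Type :=
  FreeGroup (Fin n) ⧸ (⊤ : Subgroup (FreeGroup (Fin n))).lowerCentralSeries r

/-- The standard generators of the free nilpotent group. -/
def gen (n r : ℕ) (i : Fin n) : FreeNilpotent n r := QuotientGroup.mk (FreeGroup.of i)

/-- The subgroup `γ_{c+1}(F_n) F_n^m` of the free group `F_n`: generated by the term with index `c`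
of the lower central series (the whole group has index `0`) and by all `m`-th powers. -/
def powLcs (n c m : ℕ) : Subgroup (FreeGroup (Fin n)) :=
  (⊤ : Subgroup (FreeGroup (Fin n))).lowerCentralSeries c ⊔ Subgroup.closure {g | ∃ h, h ^ m = g}

section bridge
variable {n : ℕ} {G : Type u} [Group G] {x : Fin n → G}

lemma wordValue_eq (w : List (Fin n × Bool)) :
    wordValue x w = FreeGroup.lift x (FreeGroup.mk w) := by
  rw [FreeGroup.lift_mk]
  rfl

lemma invAut_mk (w : List (Fin n × Bool)) :
    invAut n (FreeGroup.mk w) = FreeGroup.mk (w.map fun a => (a.1, !a.2)) := by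
  induction w with
  | nil => rfl
  | cons a w ih =>
    have h1 : FreeGroup.mk (a :: w) = FreeGroup.mk [a] * FreeGroup.mk w := by
      rw [FreeGroup.mul_mk]; rfl
    rw [h1, map_mul, ih, List.map_cons, ← List.singleton_append, ← FreeGroup.mul_mk]
    obtain ⟨i, b⟩ := a
    cases b
    · simp [invAut, FreeGroup.of]
    · simp [invAut, FreeGroup.of, FreeGroup.invRev]

lemma toWord_palindrome {p : FreeGroup (Fin n)} (hp : Pal (invAut n) p) :
    p.toWord.reverse = p.toWord := by
  set w := p.toWord with hw
  have hred : FreeGroup.IsReduced w := FreeGroup.isReduced_toWord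
  have hp' : FreeGroup.mk w = p := FreeGroup.mk_toWord
  have h1 : FreeGroup.mk (w.map fun a => (a.1, !a.2)) = FreeGroup.mk (FreeGroup.invRev w) := by
    rw [← invAut_mk, hp', hp, ← hp', FreeGroup.inv_mk]
  have hinj : Function.Injective (fun a : Fin n × Bool => (a.1, !a.2)) := by
    rintro ⟨i, b⟩ ⟨j, c⟩ h
    simp only [Prod.mk.injEq, Bool.not_inj_iff] at h
    rw [h.1, h.2]
  have hred1 : FreeGroup.IsReduced (w.map fun a => (a.1, !a.2)) := by
    unfold FreeGroup.IsReduced at hred ⊢
    rw [List.isChain_map]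
    refine hred.imp ?_
    intro a b hab h
    simp only at h ⊢
    rw [hab h]
  have hred2 : FreeGroup.IsReduced (FreeGroup.invRev w) := by
    unfold FreeGroup.IsReduced at hred1 ⊢
    rw [FreeGroup.invRev, List.isChain_reverse]
    refine hred1.imp ?_
    intro a b hab h
    exact (hab h.symm).symm
  have h2 := congrArg FreeGroup.toWord h1
  rw [FreeGroup.toWord_mk, FreeGroup.toWord_mk, hred1.reduce_eq, hred2.reduce_eq, FreeGroup.invRev,
    ← List.map_reverse] at h2
  exact (List.map_injective_iff.2 hinj h2).symm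

lemma isPalindrome_lift {p : FreeGroup (Fin n)} (hp : Pal (invAut n) p) :
    IsPalindrome x (FreeGroup.lift x p) := by
  refine ⟨p.toWord, FreeGroup.isReduced_toWord, toWord_palindrome hp, ?_⟩
  rw [wordValue_eq, FreeGroup.mk_toWord]

lemma lift_surj (hx : Subgroup.closure (Set.range x) = ⊤) :
    Function.Surjective (FreeGroup.lift x) := by
  rw [← MonoidHom.range_eq_top, FreeGroup.range_lift_eq_closure, hx]

lemma upper_bound (hx : Subgroup.closure (Set.range x) = ⊤) {N : ℕ}
    (h : ∀ g : FreeGroup (Fin n), ∃ l : List (FreeGroup (Fin n)),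
      l.length = N ∧ (∀ p ∈ l, Pal (invAut n) p) ∧ l.prod⁻¹ * g ∈ (FreeGroup.lift x).ker) :
    palWidth x ≤ N := by
  refine iSup_le ?_
  intro q
  obtain ⟨g, rfl⟩ := lift_surj hx q
  obtain ⟨l, h1, h2, h3⟩ := h g
  have hl : (∀ p ∈ l.map (FreeGroup.lift x), IsPalindrome x p) ∧
      (l.map (FreeGroup.lift x)).prod = FreeGroup.lift x g := by
    refine ⟨?_, ?_⟩
    · intro p hp
      rw [List.mem_map] at hp
      obtain ⟨p, hp, rfl⟩ := hp
      exact isPalindrome_lift (h2 p hp)
    · rw [MonoidHom.mem_ker, map_mul, map_inv, inv_mul_eq_one] at h3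
      rw [← h3, map_list_prod]
  have h5 : palLength x (FreeGroup.lift x g) ≤ ((l.map (FreeGroup.lift x)).length : ℕ∞) :=
    iInf_le_of_le _ (iInf_le _ hl)
  rwa [List.length_map, h1] at h5

lemma lift_list (l : List G) (hl : ∀ p ∈ l, IsPalindrome x p) :
    ∃ l' : List (FreeGroup (Fin n)), l'.length = l.length ∧
      (∀ p ∈ l', ∃ w : List (Fin n × Bool), w.reverse = w ∧ FreeGroup.mk w = p) ∧
      FreeGroup.lift x l'.prod = l.prod := by
  induction l with
  | nil => exact ⟨[], rfl, by simp, by simp⟩
  | cons p l ih =>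
    obtain ⟨l', h1, h2, h3⟩ := ih (fun p hp => hl p (List.mem_cons_of_mem _ hp))
    obtain ⟨w, -, hw, hp⟩ := hl p List.mem_cons_self
    refine ⟨FreeGroup.mk w :: l', by simp [h1], ?_, ?_⟩
    · intro q hq
      rcases List.mem_cons.1 hq with rfl | hq
      · exact ⟨w, hw, rfl⟩
      · exact h2 q hq
    · rw [List.prod_cons, List.prod_cons, map_mul, h3, ← hp, wordValue_eq]

lemma lower_bound {N : ℕ} (g : FreeGroup (Fin n)) (h : ∀ l : List (FreeGroup (Fin n)),
    (∀ p ∈ l, ∃ w : List (Fin n × Bool), w.reverse = w ∧ FreeGroup.mk w = p) →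
      l.prod⁻¹ * g ∈ (FreeGroup.lift x).ker → N ≤ l.length) :
    (N : ℕ∞) ≤ palWidth x := by
  refine le_trans ?_ (le_iSup (fun q => palLength x q) (FreeGroup.lift x g))
  refine le_iInf₂ ?_
  rintro l ⟨hl, hprod⟩
  obtain ⟨l', h1, h2, h3⟩ := lift_list l hl
  rw [← h1]
  refine Nat.cast_le.2 (h l' h2 ?_)
  rw [MonoidHom.mem_ker, map_mul, map_inv, h3, hprod, inv_mul_cancel]

lemma lcs_mono' {A B : Subgroup G} (hAB : A ≤ B) (k : ℕ) :
    A.lowerCentralSeries k ≤ B.lowerCentralSeries k := by
  induction k with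
  | zero => exact hAB
  | succ k ih => exact Subgroup.commutator_mono ih hAB

lemma lcs_le_ker {k : ℕ} (h : (⊤ : Subgroup G).lowerCentralSeries k = ⊥) :
    (⊤ : Subgroup (FreeGroup (Fin n))).lowerCentralSeries k ≤ (FreeGroup.lift x).ker := by
  rw [← Subgroup.map_eq_bot_iff, Subgroup.map_lowerCentralSeries, eq_bot_iff, ← h]
  exact lcs_mono' le_top _

lemma upper_nilpotent (hn : 1 ≤ n) (hx : Subgroup.closure (Set.range x) = ⊤)
    (hG : Group.IsNilpotent G) : palWidth x ≤ ((2 * n + 1 : ℕ) : ℕ∞) := by
  obtain ⟨k, hk⟩ := Subgroup.nilpotent_iff_lowerCentralSeries.1 hG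
  refine upper_bound hx ?_
  intro g
  obtain ⟨l, h1, h2, h3⟩ := free_upper_all n hn g (k + 2) (by omega)
  exact ⟨l, h1, h2, lcs_le_ker hk (lc_antitone (by omega) h3)⟩

lemma upper_class_three (hn : 1 ≤ n) (hx : Subgroup.closure (Set.range x) = ⊤)
    (hG : (⊤ : Subgroup G).lowerCentralSeries 3 = ⊥) : palWidth x ≤ ((2 * n - 1 : ℕ) : ℕ∞) := by
  refine upper_bound hx ?_
  intro g
  obtain ⟨l, h1, h2, h3⟩ := free_upper_three n hn g
  exact ⟨l, h1, h2, lcs_le_ker hG h3⟩

lemma lower_three (hR : (FreeGroup.lift x).ker ≤ powLcs n 2 4) :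
    ((2 * n - 1 : ℕ) : ℕ∞) ≤ palWidth x :=
  lower_bound (gTwo n) fun l hl h => lower_two' l hl (hR h)

lemma lower_five (hn : 2 ≤ n) (hR : (FreeGroup.lift x).ker ≤ powLcs n 4 8) :
    ((2 * n + 1 : ℕ) : ℕ∞) ≤ palWidth x :=
  lower_bound ((gTwo n) ^ 2) fun l hl h => lower_four' hn l hl (hR h)

end bridge

section free

lemma lift_gen (n r : ℕ) : FreeGroup.lift (gen n r) =
    QuotientGroup.mk' ((⊤ : Subgroup (FreeGroup (Fin n))).lowerCentralSeries r) := by
  ext i
  rw [FreeGroup.lift_apply_of]
  rfl

lemma ker_gen (n r : ℕ) : (FreeGroup.lift (gen n r)).ker =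
    (⊤ : Subgroup (FreeGroup (Fin n))).lowerCentralSeries r := by
  rw [lift_gen, QuotientGroup.ker_mk']

lemma closure_gen (n r : ℕ) : Subgroup.closure (Set.range (gen n r)) = ⊤ := by
  rw [← FreeGroup.range_lift_eq_closure, lift_gen, MonoidHom.range_eq_top]
  exact QuotientGroup.mk'_surjective _

lemma lcs_free (n r : ℕ) : (⊤ : Subgroup (FreeNilpotent n r)).lowerCentralSeries r = ⊥ := by
  have h1 : (⊤ : Subgroup (FreeNilpotent n r)) = (⊤ : Subgroup (FreeGroup (Fin n))).map
      (QuotientGroup.mk' ((⊤ : Subgroup (FreeGroup (Fin n))).lowerCentralSeries r)) := by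
    rw [← MonoidHom.range_eq_map, eq_comm, MonoidHom.range_eq_top]
    exact QuotientGroup.mk'_surjective _
  rw [h1, ← Subgroup.map_lowerCentralSeries, Subgroup.map_eq_bot_iff, QuotientGroup.ker_mk']

end free

/-- **Palindromic width of nilpotent groups.**
(1) For `n ≥ 2` and `r ≥ 2` the palindromic width of the free nilpotent group of rank `n` and class
`r` equals `2 n - 1` if `r ≤ 3`, and `2 n + 1` if `r ≥ 4`.
(2) Let `G` be a group generated by `x_1, …, x_n`, `n ≥ 1`. If `G` is nilpotent, its palindromic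
width is at most `2 n + 1`; if its class is at most three, at most `2 n - 1`. If all relations
between the `x_i` lie in `γ_3(F_n) F_n^4`, it is at least `2 n - 1`; if `n ≥ 2` and they lie in
`γ_5(F_n) F_n^8`, it is at least `2 n + 1`. -/
theorem result :
    (∀ n r : ℕ, 2 ≤ n → 2 ≤ r →
      palWidth (gen n r) = if r ≤ 3 then ((2 * n - 1 : ℕ) : ℕ∞) else ((2 * n + 1 : ℕ) : ℕ∞)) ∧
    ∀ (n : ℕ) (G : Type u) [Group G] (x : Fin n → G), 1 ≤ n →
      Subgroup.closure (Set.range x) = ⊤ →
      (Group.IsNilpotent G → palWidth x ≤ ((2 * n + 1 : ℕ) : ℕ∞)) ∧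
      ((⊤ : Subgroup G).lowerCentralSeries 3 = ⊥ → palWidth x ≤ ((2 * n - 1 : ℕ) : ℕ∞)) ∧
      ((FreeGroup.lift x).ker ≤ powLcs n 2 4 → ((2 * n - 1 : ℕ) : ℕ∞) ≤ palWidth x) ∧
      (2 ≤ n → (FreeGroup.lift x).ker ≤ powLcs n 4 8 → ((2 * n + 1 : ℕ) : ℕ∞) ≤ palWidth x) := by
  refine ⟨?_, fun n G _ x hn hx => ⟨upper_nilpotent hn hx, upper_class_three hn hx, lower_three,
    lower_five⟩⟩
  intro n r hn hr
  split_ifs with h3
  · refine le_antisymm (upper_class_three (by omega) (closure_gen n r) ?_) (lower_three ?_)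
    · rw [← le_bot_iff, ← lcs_free n r]
      exact Subgroup.lowerCentralSeries_antitone _ h3
    · rw [ker_gen]
      exact (Subgroup.lowerCentralSeries_antitone _ hr).trans le_sup_left
  · refine le_antisymm (upper_nilpotent (by omega) (closure_gen n r) ?_) (lower_five hn ?_)
    · exact Subgroup.nilpotent_iff_lowerCentralSeries.2 ⟨r, lcs_free n r⟩
    · rw [ker_gen]
      exact (Subgroup.lowerCentralSeries_antitone _ (by omega)).trans le_sup_left

end Pool.Agent.Results.MP_e99d20_al.NilpotentQuotients
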